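import Pool.Agent.W488.IX.Stm

/-! Project IX, part COEF: the coefficient is bounded and Lipschitz. -/

set_option autoImplicit false

namespace Pool.Agent.W883.IX.Coef

open Pool.Agent.W488.IW Pool.Agent.W488.IX
open scoped ComplexConjugate

theorem XX_pos {ε : ℝ} (hε : 0 < ε) (a : ℂ) : 0 < XX ε a :=
  Real.sqrt_pos.2 (by positivity)

theorem XX_ge {ε : ℝ} (a : ℂ) : ε ≤ XX ε a :=
  Real.le_sqrt_of_sq_le (by nlinarith [sq_nonneg ‖a‖])

theorem norm_le_XX {ε : ℝ} (a : ℂ) : ‖a‖ ≤ XX ε a :=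
  Real.le_sqrt_of_sq_le (by nlinarith [sq_nonneg ε])

theorem XX_sq {ε : ℝ} (a : ℂ) : XX ε a ^ 2 = ‖a‖ ^ 2 + ε ^ 2 :=
  Real.sq_sqrt (by positivity)

theorem XX_lip {ε : ℝ} (hε : 0 < ε) (a b : ℂ) : |XX ε a - XX ε b| ≤ ‖a - b‖ := by
  have ha := XX_pos hε a
  have hb := XX_pos hε b
  have h1 : (XX ε a - XX ε b) * (XX ε a + XX ε b) = (‖a‖ - ‖b‖) * (‖a‖ + ‖b‖) := by
    have := XX_sq (ε := ε) a
    have := XX_sq (ε := ε) b
    nlinarith
  have h2 : |XX ε a - XX ε b| * (XX ε a + XX ε b) = |‖a‖ - ‖b‖| * (‖a‖ + ‖b‖) := by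
    rw [← abs_of_pos (show 0 < XX ε a + XX ε b by positivity), ← abs_mul, h1, abs_mul,
      abs_of_nonneg (show 0 ≤ ‖a‖ + ‖b‖ by positivity)]
  have h3 : |‖a‖ - ‖b‖| ≤ ‖a - b‖ := abs_norm_sub_norm_le a b
  have h4 : |‖a‖ - ‖b‖| * (‖a‖ + ‖b‖) ≤ ‖a - b‖ * (XX ε a + XX ε b) :=
    mul_le_mul h3 (add_le_add (norm_le_XX a) (norm_le_XX b)) (by positivity) (norm_nonneg _)
  rw [← h2] at h4
  exact le_of_mul_le_mul_right h4 (by positivity)

/-- a quotient with denominator at least `ε` and norm at most one -/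
theorem quot_lip {ε : ℝ} (hε : 0 < ε) (a b : ℂ) (D E : ℝ) (hD : ε ≤ D) (hE : ε ≤ E)
    (hb : ‖b‖ ≤ E) : ‖a / (D : ℂ) - b / (E : ℂ)‖ ≤ 1 / ε * (‖a - b‖ + |D - E|) := by
  have hD0 : 0 < D := hε.trans_le hD
  have hE0 : 0 < E := hε.trans_le hE
  have hD' : (D : ℂ) ≠ 0 := by exact_mod_cast hD0.ne'
  have hE' : (E : ℂ) ≠ 0 := by exact_mod_cast hE0.ne'
  have h1 : a / (D : ℂ) - b / (E : ℂ)
      = (a - b) / D + (b / E) * ((E - D : ℝ) : ℂ) / D := by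
    push_cast
    field_simp
    ring
  have hinv : 1 / D ≤ 1 / ε := one_div_le_one_div_of_le hε hD
  have hbE : ‖b / (E : ℂ)‖ ≤ 1 := by
    rw [norm_div, Complex.norm_real, Real.norm_eq_abs, abs_of_pos hE0]
    exact (div_le_one hE0).2 hb
  have e1 : ‖(a - b) / (D : ℂ)‖ ≤ 1 / ε * ‖a - b‖ := by
    rw [norm_div, Complex.norm_real, Real.norm_eq_abs, abs_of_pos hD0, div_eq_mul_one_div, mul_comm]
    exact mul_le_mul_of_nonneg_right hinv (norm_nonneg _)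
  have e2 : ‖(b / E) * ((E - D : ℝ) : ℂ) / (D : ℂ)‖ ≤ 1 / ε * |D - E| := by
    rw [norm_div, norm_mul, Complex.norm_real, Complex.norm_real, Real.norm_eq_abs,
      Real.norm_eq_abs, abs_of_pos hD0, div_eq_mul_one_div, mul_comm, abs_sub_comm E D]
    refine mul_le_mul hinv ?_ (by positivity) (by positivity)
    calc ‖b / (E : ℂ)‖ * |D - E| ≤ 1 * |D - E| :=
          mul_le_mul_of_nonneg_right hbE (abs_nonneg _)
      _ = |D - E| := one_mul _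
  calc ‖a / (D : ℂ) - b / (E : ℂ)‖ ≤ ‖(a - b) / (D : ℂ)‖
        + ‖(b / E) * ((E - D : ℝ) : ℂ) / (D : ℂ)‖ := by rw [h1]; exact norm_add_le _ _
    _ ≤ 1 / ε * ‖a - b‖ + 1 / ε * |D - E| := add_le_add e1 e2
    _ = 1 / ε * (‖a - b‖ + |D - E|) := by ring

theorem norm_quot {a : ℂ} {D : ℝ} (hD : 0 < D) (h : ‖a‖ ≤ D) : ‖a / (D : ℂ)‖ ≤ 1 := by
  rw [norm_div, Complex.norm_real, Real.norm_eq_abs, abs_of_pos hD]
  exact (div_le_one hD).2 h

theorem max_lip {ε : ℝ} (hε : 0 < ε) (F G : ℂ × ℂ) :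
    |max (XX ε F.1) (XX ε F.2) - max (XX ε G.1) (XX ε G.2)| ≤ ‖F.1 - G.1‖ + ‖F.2 - G.2‖ := by
  refine (abs_max_sub_max_le_max _ _ _ _).trans ?_
  refine max_le ?_ ?_
  · exact (XX_lip hε _ _).trans (le_add_of_nonneg_right (norm_nonneg _))
  · exact (XX_lip hε _ _).trans (le_add_of_nonneg_left (norm_nonneg _))

theorem mX_eq {ε : ℝ} (F : ℂ × ℂ) : mX ε F = conj (F.1 / (XX ε F.1 : ℂ)) *
    (F.2 / ((max (XX ε F.1) (XX ε F.2) : ℝ) : ℂ)) := by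
  unfold mX
  rw [map_div₀, Complex.conj_ofReal, div_mul_div_comm]
  push_cast
  rfl

theorem main : S_COEF := by
  intro ε hε
  have hu : ∀ F : ℂ × ℂ, ‖F.1 / (XX ε F.1 : ℂ)‖ ≤ 1 := fun F => norm_quot (XX_pos hε _) (norm_le_XX _)
  have hv : ∀ F : ℂ × ℂ, ‖F.2 / ((max (XX ε F.1) (XX ε F.2) : ℝ) : ℂ)‖ ≤ 1 := fun F =>
    norm_quot ((XX_pos hε _).trans_le (le_max_left _ _)) ((norm_le_XX _).trans (le_max_right _ _))
  constructor
  · intro F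
    rw [mX_eq, norm_mul, RCLike.norm_conj]
    calc _ ≤ (1 : ℝ) * 1 := mul_le_mul (hu F) (hv F) (norm_nonneg _) zero_le_one
      _ = 1 := one_mul 1
  · refine ⟨4 / ε, fun F G => ?_⟩
    rw [mX_eq, mX_eq]
    set u := F.1 / (XX ε F.1 : ℂ) with hu1
    set u' := G.1 / (XX ε G.1 : ℂ) with hu2
    set v := F.2 / ((max (XX ε F.1) (XX ε F.2) : ℝ) : ℂ) with hv1
    set v' := G.2 / ((max (XX ε G.1) (XX ε G.2) : ℝ) : ℂ) with hv2
    have h : conj u * v - conj u' * v' = conj (u - u') * v + conj u' * (v - v') := by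
      rw [map_sub]; ring
    have d1 : ‖u - u'‖ ≤ 2 / ε * ‖F.1 - G.1‖ := by
      refine (quot_lip hε _ _ _ _ (XX_ge _) (XX_ge _) (norm_le_XX _)).trans ?_
      have := XX_lip hε F.1 G.1
      calc 1 / ε * (‖F.1 - G.1‖ + |XX ε F.1 - XX ε G.1|)
          ≤ 1 / ε * (‖F.1 - G.1‖ + ‖F.1 - G.1‖) := by gcongr
        _ = _ := by ring
    have d2 : ‖v - v'‖ ≤ 1 / ε * (‖F.2 - G.2‖ + (‖F.1 - G.1‖ + ‖F.2 - G.2‖)) := by
      refine (quot_lip hε _ _ _ _ ((XX_ge _).trans (le_max_left _ _))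
        ((XX_ge _).trans (le_max_left _ _)) ((norm_le_XX _).trans (le_max_right _ _))).trans ?_
      have := max_lip hε F G
      gcongr
    rw [h]
    calc ‖conj (u - u') * v + conj u' * (v - v')‖
        ≤ ‖u - u'‖ * ‖v‖ + ‖u'‖ * ‖v - v'‖ := by
          refine (norm_add_le _ _).trans ?_
          rw [norm_mul, norm_mul, RCLike.norm_conj, RCLike.norm_conj]
      _ ≤ (2 / ε * ‖F.1 - G.1‖) * 1 + 1 * (1 / ε * (‖F.2 - G.2‖ + (‖F.1 - G.1‖ + ‖F.2 - G.2‖))) := by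
          refine add_le_add ?_ ?_
          · exact mul_le_mul d1 (hv F) (norm_nonneg _) (by positivity)
          · exact mul_le_mul (hu G) d2 (norm_nonneg _) zero_le_one
      _ = 1 / ε * (3 * ‖F.1 - G.1‖ + 2 * ‖F.2 - G.2‖) := by ring
      _ ≤ 1 / ε * (4 * ‖F.1 - G.1‖ + 4 * ‖F.2 - G.2‖) := by
          have := norm_nonneg (F.1 - G.1)
          have := norm_nonneg (F.2 - G.2)
          apply mul_le_mul_of_nonneg_left _ (by positivity)
          linarith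
      _ = _ := by ring

end Pool.Agent.W883.IX.Coef
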